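import Pool.Agent.Y491.BF.Final

/-!
# Beyond the constant of Brightwell, Felsner and Trotter

There is an absolute constant `c > 0` such that every finite poset which is not a chain has a pair of
elements with `P(x before y)` between `(5 - √5) / 10 + c` and its complement.  The constant
`(5 - √5) / 10 = 0.27639...` of Brightwell, Felsner and Trotter (1995), the best known bound for
general finite posets, is optimal for infinite posets of finite width; so an improvement must use
that the poset is finite.

Proof.  Suppose that all pairs are unbalanced with a constant slightly larger than `(5 - √5) / 10`.
By the earlier result on elements with many incomparable elements the poset is `K`-thin, with an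
absolute constant `K`.  Enumerate the elements by the average height.  For three consecutive elements
`x`, `y`, `z` the heights satisfy `h(z) - h(x) ≥ 2` up to a small error, and near equality forces
`h(y) - h(x) ≈ 1` (this is proved from the log-concavity of the gap in random order preserving maps,
from exchange inequalities for gaps two and three, and from the negative correlation of the events
that `y` comes immediately after `x` and immediately before `z`, a consequence of the four functions
theorem).  At the lower end of the poset (the first element with an incomparable partner) the sum of
two consecutive height defects is bounded from below, it does not decrease along the enumeration, and
so the expected number of inversions across a cut grows linearly.  In a `K`-thin poset this number is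
at most `(2K+1)K`, a contradiction.
-/

set_option autoImplicit false

namespace Pool.Agent.Results.MP_33fb9b_co.BeyondBFT

open Pool.Agent.H13R3.WB

theorem result : ∃ c : ℝ, 0 < c ∧ ∀ (P : Type) [Fintype P] [PartialOrder P],
    (∃ x y : P, ¬ x ≤ y ∧ ¬ y ≤ x) → (5 - √5) / 10 + c ≤ balance P :=
  Pool.Agent.Y491.BF.beyond

end Pool.Agent.Results.MP_33fb9b_co.BeyondBFT
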