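import Pool.Agent.Y491.FP.Final

/-!
# The uniform gap above `1/3` is a finite problem

Put `N(ε) = exp (exp (exp (B log(2/ε)³ / ε⁴)))`, with an absolute constant `B`.

* For every `ε` with `0 < ε ≤ 1/2`, every finite poset `P` outside `𝒟` has a companion `Q`, again
  outside `𝒟`, with at most `N(ε)` elements and `δ(Q) ≤ δ(P) + ε`.  So the infimum of the balance
  constants outside `𝒟` is known up to `ε` from the posets with at most `N(ε)` elements.
* Consequently the gap asked for in Q1 exists if and only if, for some `ε`, the inequality
  `δ(Q) ≥ 1/3 + 2 ε` holds for the finitely many posets `Q` outside `𝒟` with at most `N(ε)`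
  elements: if Q1 is true, then it has a proof by a finite computation.

Proof.  If some element of `P` is incomparable to more than `K = exp (B₀ log(2/ε)³ / ε⁴)` elements,
then `δ(P) ≥ 1/2 - ε` (the earlier result `ManyIncomparable`), and the antichain with two elements is
a companion.  Otherwise `P` is `K`-thin.  Take a natural labelling.  Locality: the probability that
`x` comes before `y` is determined, up to `2 (1 - 1/K!)^m`, by the window of the labels at distance at
most `(m+1)K` (a contraction argument of Doeblin for the lower sets of given size).  Incomparable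
elements have labels at distance less than `2K`.  Hence `δ(P)` is determined up to `ε` by the set of
the windows of a length `L(ε)`.  In a long poset two windows of length `L(ε)` are equal, and the part
between them can be cut out; the new poset has the same short windows.  Cuts (where `P` is a direct
sum) are seen in the windows; so for a direct summand of `P` outside `𝒟` which is not a direct sum
the companion is not a direct sum either, and it is outside `𝒟`.
-/

set_option autoImplicit false

namespace Pool.Agent.Results.MP_33fb9b_co.FiniteProblem

open Pool.Agent.H13R3.WB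

theorem result : ∃ B : ℝ, 0 < B ∧
    (∀ ε : ℝ, 0 < ε → ε ≤ 1 / 2 →
      ∀ (P : Type) [Fintype P] [PartialOrder P] [Nonempty P], ¬ InD P →
      ∃ (Q : Type) (_ : Fintype Q) (_ : PartialOrder Q), Nonempty Q ∧ ¬ InD Q ∧
        (Fintype.card Q : ℝ) ≤ Real.exp (Real.exp (Real.exp (B * Real.log (2 / ε) ^ 3 / ε ^ 4))) ∧
        balance Q ≤ balance P + ε) ∧
    ((∃ ε : ℝ, 0 < ε ∧ ∀ (P : Type) [Fintype P] [PartialOrder P] [Nonempty P], ¬ InD P →
        1 / 3 + ε ≤ balance P) ↔
      ∃ ε : ℝ, 0 < ε ∧ ε ≤ 1 / 2 ∧
        ∀ (Q : Type) [Fintype Q] [PartialOrder Q] [Nonempty Q], ¬ InD Q →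
        (Fintype.card Q : ℝ) ≤ Real.exp (Real.exp (Real.exp (B * Real.log (2 / ε) ^ 3 / ε ^ 4))) →
        1 / 3 + 2 * ε ≤ balance Q) :=
  Pool.Agent.Y491.FP.main1'

end Pool.Agent.Results.MP_33fb9b_co.FiniteProblem
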