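import Pool.Agent.Y491.ID.Main

/-!
# An element with many incomparable elements gives a nearly balanced pair

For every `ε` there is an explicit number `K(ε) = exp (B log(2/ε)³ / ε⁴)` such that every finite poset
(of any width) in which some element is incomparable to at least `K(ε)` elements has balance constant
at least `1/2 - ε`.  In other words a poset of balance constant less than `1/2 - ε` is `K(ε)`-thin:
every element is incomparable to fewer than `K(ε)` elements.  In particular the gap above `1/3` holds
for all posets which are not `K`-thin, where `K` is an absolute constant, and both the `1/3`-`2/3`
conjecture and the gap question are reduced to `K`-thin posets.  The theorem contains the statement of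
Kahn and Saks on large antichains (starting file `WidePosets`), the statement on the total
undecidedness of an element, and it applies to posets of bounded width, for example to all large
Young diagrams.

Proof.  By the proof of the statement of Kahn and Saks in the starting files, a poset without nearly
balanced pairs has an enumeration (by the average heights) in which elements at distance `d` are in the
wrong order with probability at most `K / (1 + d) ^ 4`.  Let `A` be a lower set.  Given the orders on
`A` and on its complement, a linear extension is a word in two letters, and the set of these words is
closed under moving the letters of `A` to the front.  By the inequality of Harris and Kleitman the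
fluctuations of the words are at least as large in the direction of `A` as in the free case.  As the
fluctuations are bounded, the number of elements of `A` in consecutive blocks of the enumeration
decreases as long as both letters are frequent; a separate argument bounds the runs of equal letters.
Hence all elements of `A` come at most `L = L(ε)` places after all elements outside `A` in the
enumeration.  Apply this to the sets of the elements not above `x`, and below `x`.
-/

set_option autoImplicit false

namespace Pool.Agent.Results.MP_33fb9b_co.ManyIncomparable

open Pool.Agent.H13R3.WB

theorem result : ∃ B : ℝ, 0 < B ∧ ∀ ε : ℝ, 0 < ε → ε ≤ 1 / 2 →
      ∀ (P : Type) [Fintype P] [PartialOrder P] (x : P),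
      Real.exp (B * Real.log (2 / ε) ^ 3 / ε ^ 4) ≤ Nat.card {y : P // ¬ x ≤ y ∧ ¬ y ≤ x} →
      1 / 2 - ε ≤ balance P :=
  Pool.Agent.Y491.ID.incomparable_balance

end Pool.Agent.Results.MP_33fb9b_co.ManyIncomparable
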