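import Mathlib
import Pool.Agent.Y400.WR.Top

/-!
# Q2 is false for all sizes, and how fast the least balance constant of width two converges

The balance constant `balance` and the class `InD` (the class `𝒟`) are those of the problem.  Let
`m(n)` be the least balance constant of a poset with `n` elements, of width at most two, outside
`𝒟`.  Let `γ = (10999528681 - 3105 √433) / 31531330288 = 0.348842372639...` and
`κ = (21 + √433) ^ 2 / 8 = 218.495...`.

* `m(n) < β` for every `n ≥ 41`; so the answer to Q2 is no.
* `10 ^ (-27) κ ^ (-n / 16) ≤ m(n) - γ ≤ 10 ^ 13 κ ^ (-n / 16)` for every `n ≥ 69`.  The lower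
  bound holds for all `n`, and for all posets with `n` elements outside `𝒟` that are built from
  posets of width at most two by disjoint sums and direct sums.

Lower bound.  A poset of width two is a system of lattice paths between two walls.  If the balance
constant is less than `γ + ε`, then the system is forced on the first 29 levels, and after that in
periods of 8 levels.  The error of the ratio of the numbers of completions is multiplied by exactly
`κ`, the quotient of the two eigenvalues of the transfer matrix of a period, so at least
`log (1 / ε) / log κ - O(1)` periods are forced (`zones`).  The same holds at the other end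
(`rev`, `swp`), and the two forced zones cannot overlap: no word of at most 7 steps leads from a
level of the first zone to a level of the second one (`check_ov`).  Upper bound.  The posets
`Tm m`, with `69 + 16 m` elements, and direct sums of them with chains.
-/

namespace Pool.Agent.Results.MP_33fb9b_co.WidthTwoRate

open Pool.Agent.H13R3.WB Pool.Agent.H931R3.Bal Pool.Agent.Y400.WR

/-- Every antichain has at most two elements, and there is at least one element. -/
def WidthLeTwo (P : Type) [PartialOrder P] : Prop :=
  Nonempty P ∧ ∀ s : Finset P, IsAntichain (· ≤ ·) (s : Set P) → s.card ≤ 2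

/-- the number `β` of the problem -/
noncomputable def beta : ℝ := (5864893 + 27 * √57) / 16812976

/-- the number `γ = 0.348842372639...` -/
noncomputable def gamma : ℝ := (10999528681 - 3105 * √433) / 31531330288

/-- the number `κ = 218.495...` -/
noncomputable def kappa : ℝ := (21 + √433) ^ 2 / 8

theorem result :
    -- the answer to Q2 is no, with examples of every size from 41 on
    (∀ n : ℕ, 41 ≤ n → ∃ (P : Type) (_ : Fintype P) (_ : PartialOrder P),
      Fintype.card P = n ∧ WidthLeTwo P ∧ ¬ InD P ∧ balance P < beta) ∧
    -- the upper bound
    (∀ n : ℕ, 69 ≤ n → ∃ (P : Type) (_ : Fintype P) (_ : PartialOrder P),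
      Fintype.card P = n ∧ WidthLeTwo P ∧ ¬ InD P ∧
        balance P ≤ gamma + 10 ^ 13 * kappa ^ (-(n : ℝ) / 16)) ∧
    -- the lower bound
    (∀ (P : Type) [Fintype P] [PartialOrder P], Built WidthLeTwo P → ¬ InD P →
      gamma + kappa ^ (-(Fintype.card P : ℝ) / 16) / 10 ^ 27 ≤ balance P) := by
  refine ⟨fun n hn => below_beta n hn, fun n hn => ?_, fun P _ _ hP hD => ?_⟩
  · obtain ⟨P, i1, i2, h1, h2, h3, h4⟩ := upper_all n hn
    refine ⟨P, i1, i2, h1, h2, h3, h4.trans ?_⟩
    have := upper_pow n hn
    show Pool.Agent.TH153.WX.gam + _ ≤ Pool.Agent.TH153.WX.gam + 10 ^ 13 * kap ^ (-(n : ℝ) / 16)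
    linarith
  · exact (lower_built P hP).2.resolve_left hD

end Pool.Agent.Results.MP_33fb9b_co.WidthTwoRate
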